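import Pool.Agent.U664.BaseSn

/-!
# MP_3e5dca_al, Q1: no faithful action of the symmetric group of degree `n` has base size above `n`

Idea of the proof for `n ≥ 5`. Choose a point `x` whose stabiliser `H` does not contain `A_n`.
If `h` and `(a b) h (a b)` both lie in `H`, then so does `(a b) (h a, h b)`.
* `H` intransitive, or with an invariant equivalence relation whose classes have at least three
  points: a double star of `n - 1` transpositions `t` gives the base `{x} ∪ {t x}`.
* `H` with an invariant perfect matching, or `H` primitive (then it has no three-cycle and no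
  transposition, by Jordan): the points `x, (a y) x` for `y` outside a set of three or four points
  have a common stabiliser in which only the identity fixes `a`. The number of images of `a` is at
  most `4`, respectively at most `8` for a suitable `a`, so that two, respectively three, further
  points complete a base.
For `n ≤ 4` one has `n! < 2 ^ (n + 1)`.
-/

namespace Pool.Agent.Results.MP_3e5dca_al.BaseAtMostDegree

universe u

/-- `B` is a base of the action of `G` on `X`: its pointwise stabiliser is trivial. -/
def IsBase (G : Type*) [Group G] (X : Type*) [MulAction G X] (B : Finset X) : Prop :=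
  ∀ g : G, (∀ x ∈ B, g • x = x) → g = 1

/-- The base size `b(G, X)`: the smallest cardinality of a base. -/
noncomputable def baseSize (G : Type*) [Group G] (X : Type*) [MulAction G X] : ℕ :=
  sInf {k | ∃ B : Finset X, IsBase G X B ∧ B.card = k}

/-- For every `n ≥ 1` and every faithful action of `S_n` on a finite set `X`, the base size
`b(S_n, X)` (attained by some base `B`) is at most `n`. -/
theorem result (n : ℕ) (_hn : 1 ≤ n) (X : Type u) [Finite X]
    [MulAction (Equiv.Perm (Fin n)) X] [FaithfulSMul (Equiv.Perm (Fin n)) X] :
    (∃ B : Finset X, IsBase (Equiv.Perm (Fin n)) X B ∧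
      B.card = baseSize (Equiv.Perm (Fin n)) X) ∧
    baseSize (Equiv.Perm (Fin n)) X ≤ n := by
  classical
  obtain ⟨B, hB, hb⟩ := Pool.Agent.U664.BaseSn.exists_base (Fin n) X
  have hmem : B.card ∈ {k | ∃ B : Finset X, IsBase (Equiv.Perm (Fin n)) X B ∧ B.card = k} :=
    ⟨B, hb, rfl⟩
  refine ⟨Nat.sInf_mem ⟨_, hmem⟩, ?_⟩
  refine le_trans (Nat.sInf_le hmem) ?_
  simpa using hB

end Pool.Agent.Results.MP_3e5dca_al.BaseAtMostDegree
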